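import Mathlib

open Complex Set Filter Topology MeasureTheory Metric
open scoped Real ComplexConjugate

namespace Pool.Agent.H.MP_c109b8_an

lemma blas (T : Finset ℂ) : ∀ F : ℂ → ℂ, DifferentiableOn ℂ F (ball 0 1) → (∀ z ∈ ball (0 : ℂ) 1, ‖F z‖ ≤ 1) →
    (∀ a ∈ T, ‖a‖ < 1 ∧ F a = 0) → ‖F 0‖ ≤ ∏ a ∈ T, ‖a‖ := by
  induction T using Finset.induction_on with
  | empty => intro F _ h _; simpa using h 0 (by simp)
  | insert a T ha ih =>
    intro F hF hb hz
    obtain ⟨a1, a0⟩ := hz a (by simp)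
    have den : ∀ (c z : ℂ), ‖c‖ < 1 → ‖z‖ < 1 → 1 - conj c * z ≠ 0 := fun c z hc h e => by
      have : ‖conj c * z‖ < 1 := by
        rw [norm_mul, RCLike.norm_conj]; exact mul_lt_one_of_nonneg_of_lt_one_left (norm_nonneg _) hc h.le
      rw [← sub_eq_zero.1 e] at this; simp at this
    have mob : ∀ (c z : ℂ), ‖c‖ < 1 → ‖z‖ < 1 → ‖(z - c) / (1 - conj c * z)‖ < 1 := fun c z hc h => by
      rw [norm_div, div_lt_one (norm_pos_iff.2 (den c z hc h)), ← sq_lt_sq₀ (norm_nonneg _) (norm_nonneg _),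
        Complex.sq_norm, Complex.sq_norm]
      have h1 : normSq c < 1 := by rw [← Complex.sq_norm]; nlinarith [norm_nonneg c]
      have h2 : normSq z < 1 := by rw [← Complex.sq_norm]; nlinarith [norm_nonneg z]
      have := mul_pos (sub_pos.2 h1) (sub_pos.2 h2)
      simp only [normSq_apply, sub_re, sub_im, mul_re, mul_im, conj_re, conj_im, one_re, one_im] at *
      nlinarith
    have md : ∀ c : ℂ, ‖c‖ < 1 → DifferentiableOn ℂ (fun z => (z - c) / (1 - conj c * z)) (ball 0 1) := fun c hc =>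
      DifferentiableOn.div (by fun_prop) (by fun_prop) fun z hz => den c z hc (by simpa using hz)
    have mm : ∀ c : ℂ, ‖c‖ < 1 → MapsTo (fun z => (z - c) / (1 - conj c * z)) (ball 0 1) (ball 0 1) :=
      fun c hc z hz => mem_ball_zero_iff.2 (mob c z hc (by simpa using hz))
    have na : ‖-a‖ < 1 := by simpa using a1
    let h : ℂ → ℂ := F ∘ fun u => (u - -a) / (1 - conj (-a) * u)
    have hd : DifferentiableOn ℂ h (ball 0 1) := hF.comp (md _ na) (mm _ na)
    have h0 : h 0 = 0 := by simp [h, a0]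
    have key : ∀ z : ℂ, ‖z‖ < 1 → F z = (z - a) / (1 - conj a * z) * dslope h 0 ((z - a) / (1 - conj a * z)) :=
      fun z hz => by
      have := sub_smul_dslope h 0 ((z - a) / (1 - conj a * z))
      rw [sub_zero, h0, sub_zero, smul_eq_mul] at this
      rw [this]
      simp only [h, Function.comp]
      congr 1
      have d1 := den a z a1 hz
      rw [eq_div_iff (den _ _ na (mob a z a1 hz))]
      simp only [map_neg]
      linear_combination (a - z) * mul_inv_cancel₀ d1
    have := ih (dslope h 0 ∘ fun z => (z - a) / (1 - conj a * z))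
      (((differentiableOn_dslope (ball_mem_nhds 0 one_pos)).2 hd).comp (md a a1) (mm a a1))
      (fun z hz => by
        have := norm_dslope_le_div_of_mapsTo_ball (R₂ := 1) hd (fun u hu => by
          rw [h0, mem_closedBall_zero_iff]; exact hb _ (mm _ na hu)) (mm a a1 hz)
        simpa using this)
      fun b hb' => by
        obtain ⟨b1, b0⟩ := hz b (by simp [hb'])
        refine ⟨b1, ?_⟩
        have := key b b1
        rw [b0] at this
        exact (mul_eq_zero.1 this.symm).resolve_left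
          (div_ne_zero (sub_ne_zero.2 fun e => ha (e ▸ hb')) (den a b a1 b1))
    rw [Finset.prod_insert ha, key 0 (by simp), norm_mul]
    exact mul_le_mul (by simp) this (norm_nonneg _) (norm_nonneg _)

lemma blas_sum (F : ℂ → ℂ) (hF : DifferentiableOn ℂ F (ball 0 1)) (hb : ∀ z ∈ ball (0 : ℂ) 1, ‖F z‖ ≤ 1)
    (h0 : F 0 ≠ 0) (T : Finset ℂ) (hT : ∀ a ∈ T, ‖a‖ < 1 ∧ F a = 0) :
    ∑ a ∈ T, (1 - ‖a‖) ≤ -Real.log ‖F 0‖ := by
  have h1 : ∏ a ∈ T, ‖a‖ ≤ ∏ a ∈ T, Real.exp (-(1 - ‖a‖)) :=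
    Finset.prod_le_prod (fun _ _ => norm_nonneg _) fun a _ => by linarith [Real.add_one_le_exp (-(1 - ‖a‖))]
  rw [← Real.exp_sum, Finset.sum_neg_distrib] at h1
  have := (Real.log_le_iff_le_exp (norm_pos_iff.2 h0)).2 ((blas T F hF hb hT).trans h1)
  linarith

def U : Set ℂ := {w | 0 < w.im}
lemma U_open : IsOpen U := isOpen_lt continuous_const continuous_im

lemma quot {ψ Q : ℂ → ℂ} (h1 : DifferentiableOn ℂ ψ U) (h2 : DifferentiableOn ℂ Q U)
    (h : ∀ a ∈ U, Q a = 0 → ψ a = 0 ∧ deriv Q a ≠ 0) :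
    ∃ φ : ℂ → ℂ, DifferentiableOn ℂ φ U ∧ ∀ w, Q w ≠ 0 → φ w = ψ w / Q w := by
  refine ⟨fun w => if Q w = 0 then deriv ψ w / deriv Q w else ψ w / Q w, fun a ha => ?_, fun w hw => if_neg hw⟩
  have hn := U_open.mem_nhds ha
  refine DifferentiableAt.differentiableWithinAt ?_
  by_cases e : Q a = 0
  · have d1 := ((differentiableOn_dslope hn).2 h1).differentiableAt hn
    have d2 := ((differentiableOn_dslope hn).2 h2).differentiableAt hn
    have n0 : dslope Q a a ≠ 0 := by rw [dslope_same]; exact (h a ha e).2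
    refine (d1.div d2 n0).congr_of_eventuallyEq ?_
    filter_upwards [d2.continuousAt.eventually_ne n0] with w hw
    by_cases f : w = a
    · subst f; simp [e]
    · have e1 := sub_smul_dslope ψ a w
      have e2 := sub_smul_dslope Q a w
      rw [(h a ha e).1, sub_zero, smul_eq_mul] at e1
      rw [e, sub_zero, smul_eq_mul] at e2
      have f' := sub_ne_zero.2 f
      rw [if_neg (by rw [← e2]; exact mul_ne_zero f' hw), ← e1, ← e2, Pi.div_apply, mul_div_mul_left _ _ f']
  · have d2 := h2.differentiableAt hn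
    refine ((h1.differentiableAt hn).div d2 e).congr_of_eventuallyEq ?_
    filter_upwards [d2.continuousAt.eventually_ne e] with w hw
    simp [hw]

lemma contour {Φ : ℂ → ℂ} (hd : DifferentiableOn ℂ Φ U) {y : ℝ} (y0 : 0 < y) (y1 : y ≤ 1)
    (hi : Integrable fun x : ℝ => Φ (x + y * I)) (C : ℝ)
    (hb : ∀ᶠ k : ℕ in atTop, ∀ x t : ℝ, 0 < t → -(k * π) ≤ x → x ≤ k * π + π / 2 →
      (x = -(k * π) ∨ x = k * π + π / 2 ∨ t = k * π) → ‖Φ (x + t * I)‖ ≤ C / (k * π * √(k * π))) :
    ∫ x : ℝ, Φ (x + y * I) = 0 := by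
  have t1 : Tendsto (fun k : ℕ => (k : ℝ) * π) atTop atTop := tendsto_natCast_atTop_atTop.atTop_mul_const Real.pi_pos
  have l1 := intervalIntegral_tendsto_integral hi (tendsto_neg_atTop_atBot.comp t1) (tendsto_atTop_add_const_right _ (π / 2) t1)
  refine tendsto_nhds_unique l1 (squeeze_zero_norm' (a := fun k : ℕ => 5 * C / √(k * π)) ?_
    (tendsto_const_nhds.div_atTop (Real.tendsto_sqrt_atTop.comp t1)))
  filter_upwards [hb, t1.eventually_ge_atTop 4] with k hk h4
  set N : ℝ := k * π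
  have p4 := Real.pi_le_four
  have p0 := Real.pi_pos
  have C0 : 0 ≤ C / (N * √N) := (norm_nonneg _).trans (hk (-N) 1 one_pos le_rfl (by linarith) (Or.inl rfl))
  have := integral_boundary_rect_eq_zero_of_differentiableOn Φ ⟨-N, y⟩ ⟨N + π / 2, N⟩ (hd.mono fun w hw => by
    have := hw.2
    rw [uIcc_of_le (by simp only; linarith)] at this
    exact y0.trans_le this.1)
  simp only at this
  have b1 : ‖∫ x : ℝ in (-N)..(N + π / 2), Φ (x + N * I)‖ ≤ C / (N * √N) * |N + π / 2 - -N| :=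
    intervalIntegral.norm_integral_le_of_norm_le_const fun x hx => by
      rw [uIoc_of_le (by linarith)] at hx
      exact hk x N (by linarith) hx.1.le hx.2 (Or.inr (Or.inr rfl))
  have b2 : ‖∫ t : ℝ in y..N, Φ ((N + π / 2 : ℝ) + t * I)‖ ≤ C / (N * √N) * |N - y| :=
    intervalIntegral.norm_integral_le_of_norm_le_const fun t ht => by
      rw [uIoc_of_le (by linarith)] at ht
      exact hk _ t (y0.trans ht.1) (by linarith) le_rfl (Or.inr (Or.inl rfl))
  have b3 : ‖∫ t : ℝ in y..N, Φ ((-N : ℝ) + t * I)‖ ≤ C / (N * √N) * |N - y| :=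
    intervalIntegral.norm_integral_le_of_norm_le_const fun t ht => by
      rw [uIoc_of_le (by linarith)] at ht
      exact hk _ t (y0.trans ht.1) le_rfl (by linarith) (Or.inl rfl)
  rw [abs_of_nonneg (by linarith)] at b1 b2 b3
  simp only [Function.comp]
  rw [show ∫ x : ℝ in (-N)..(N + π / 2), Φ (x + y * I) = (∫ x : ℝ in (-N)..(N + π / 2), Φ (x + N * I)) -
    I • (∫ t : ℝ in y..N, Φ ((N + π / 2 : ℝ) + t * I)) + I • (∫ t : ℝ in y..N, Φ ((-N : ℝ) + t * I)) by
      linear_combination this]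
  refine (norm_add_le _ _).trans ((add_le_add_left (norm_sub_le _ _) _).trans ?_)
  rw [norm_smul, norm_smul, norm_I, one_mul, one_mul,
    show 5 * C / √N = C / (N * √N) * (5 * N) by field_simp]
  nlinarith

end Pool.Agent.H.MP_c109b8_an
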