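import Pool.Agent.H.MP_c109b8_an.A

open Complex Set Filter Topology MeasureTheory Metric
open scoped Real ComplexConjugate

namespace Pool.Agent.H.MP_c109b8_an

noncomputable def S (w : ℂ) : ℂ := exp (I * w)
noncomputable def P (w : ℂ) : ℂ := w + I - S w ^ 2 / 10
noncomputable def Q (w : ℂ) : ℂ := (w - I) * S w ^ 2 - 1 / 10
noncomputable def K (w : ℂ) : ℂ := S w / (P w * Q w)
noncomputable def W (x : ℝ) : ℝ := (‖P x‖ ^ 2)⁻¹

@[fun_prop] lemma S_d : Differentiable ℂ S := by unfold S; fun_prop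
@[fun_prop] lemma P_d : Differentiable ℂ P := by unfold P; fun_prop
@[fun_prop] lemma Q_d : Differentiable ℂ Q := by unfold Q; fun_prop
lemma S_norm (w : ℂ) : ‖S w‖ = Real.exp (-w.im) := by simp [S, norm_exp]
lemma S_le {w : ℂ} (h : 0 ≤ w.im) : ‖S w‖ ≤ 1 := by rw [S_norm]; exact Real.exp_le_one_iff.2 (by linarith)

lemma P_low {w : ℂ} (h : 0 ≤ w.im) : ‖w + I‖ - 1 / 10 ≤ ‖P w‖ := by
  have := norm_sub_norm_le (w + I) (S w ^ 2 / 10)
  have h1 : ‖S w ^ 2 / 10‖ ≤ 1 / 10 := by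
    rw [norm_div, norm_pow]; simp only [Complex.norm_ofNat]
    gcongr; exact pow_le_one₀ (norm_nonneg _) (S_le h)
  unfold P; linarith

lemma sq_n (w : ℂ) : ‖w‖ ^ 2 = w.re ^ 2 + w.im ^ 2 := by rw [Complex.sq_norm, normSq_apply]; ring

lemma P_sq {w : ℂ} (h : 0 ≤ w.im) : (1 + w.re ^ 2) / 2 ≤ ‖P w‖ ^ 2 := by
  have h1 := P_low h
  have h2 := sq_n (w + I)
  simp only [add_re, I_re, add_zero, add_im, I_im] at h2
  have h3 : 1 ≤ ‖w + I‖ := by simpa using le_trans (by simp; linarith) (im_le_norm (w + I))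
  have : (9 / 10 * ‖w + I‖) ^ 2 ≤ ‖P w‖ ^ 2 := by gcongr; linarith
  nlinarith [sq_nonneg w.re]
lemma P_ne {w : ℂ} (h : 0 ≤ w.im) : P w ≠ 0 := fun e => by
  have := P_sq h
  rw [e] at this; simp at this; nlinarith [sq_nonneg w.re]

lemma Q_sq {w : ℂ} (h : 0 ≤ w.im) (h4 : w.im ≤ 1 / 4) : (1 + w.re ^ 2) / 32 ≤ ‖Q w‖ ^ 2 := by
  have h1 := norm_sub_norm_le ((w - I) * S w ^ 2) (1 / 10)
  have h2 := sq_n (w - I)
  simp only [sub_re, I_re, sub_zero, sub_im, I_im] at h2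
  have h3 : 3 / 4 ≤ ‖w - I‖ := le_trans (by simp only [sub_im, I_im]; rw [abs_of_nonpos] <;> linarith)
    (abs_im_le_norm (w - I))
  have h5 : 1 / 2 ≤ ‖S w‖ ^ 2 := by
    rw [S_norm, ← Real.exp_nat_mul]
    have := Real.add_one_le_exp ((2 : ℕ) * -w.im)
    push_cast at this ⊢; linarith
  rw [norm_mul, norm_pow] at h1
  have h6 : ‖(1 / 10 : ℂ)‖ = 1 / 10 := by simp
  have : (1 / 3 * ‖w - I‖) ^ 2 ≤ ‖Q w‖ ^ 2 := by gcongr; unfold Q; nlinarith
  nlinarith [sq_nonneg w.re]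
lemma Q_ne {w : ℂ} (h : 0 ≤ w.im) (h4 : w.im ≤ 1 / 4) : Q w ≠ 0 := fun e => by
  have := Q_sq h h4
  rw [e] at this; simp at this; nlinarith [sq_nonneg w.re]

lemma K_le {w : ℂ} (h : 0 ≤ w.im) (h4 : w.im ≤ 1 / 4) : ‖K w‖ ≤ 8 * (1 + w.re ^ 2)⁻¹ := by
  have h1 : (1 + w.re ^ 2) / 8 ≤ ‖P w‖ * ‖Q w‖ := by
    rw [← sq_le_sq₀ (by positivity) (by positivity), mul_pow]
    exact le_trans (le_of_eq (by ring)) (mul_le_mul (P_sq h) (Q_sq h h4) (by positivity) (by positivity))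
  rw [K, norm_div, norm_mul]
  calc _ ≤ 1 / ((1 + w.re ^ 2) / 8) := by gcongr; exact S_le h
    _ = _ := by field_simp

lemma W_le (x : ℝ) : W x ≤ 2 * (1 + x ^ 2)⁻¹ := by
  have := P_sq (w := x) (by simp)
  rw [W, ofReal_re] at *
  calc _ ≤ ((1 + x ^ 2) / 2)⁻¹ := by gcongr
    _ = _ := by field_simp
lemma W_ge (x : ℝ) : (1 + x ^ 2)⁻¹ ≤ 4 * W x := by
  have h1 : ‖P x‖ ≤ 2 * ‖(x : ℂ) + I‖ := by
    have h3 : 1 ≤ ‖(x : ℂ) + I‖ := by simpa using im_le_norm (x + I)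
    have := norm_sub_le ((x : ℂ) + I) (S x ^ 2 / 10)
    rw [norm_div, norm_pow, S_norm] at this
    simp at this
    unfold P; linarith
  have h2 := sq_n (x + I)
  simp only [add_re, I_re, add_zero, add_im, I_im, ofReal_re, ofReal_im] at h2
  have h0 := norm_pos_iff.2 (P_ne (w := x) (by simp))
  rw [W, ← div_eq_mul_inv, inv_eq_one_div, div_le_div_iff₀ (by positivity) (by positivity)]
  nlinarith
lemma W_cont : Continuous W := by
  have := P_d.continuous
  exact Continuous.inv₀ (by fun_prop) fun x => pow_ne_zero _ (norm_ne_zero_iff.2 (P_ne (by simp)))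

lemma S_conj (x : ℝ) : S x * conj (S x) = 1 := by
  rw [mul_conj, normSq_eq_norm_sq, S_norm]; simp
lemma K_real (x : ℝ) : K x = conj (S x) * W x := by
  have h1 := S_conj x
  have h2 : Q x = S x ^ 2 * conj (P x) := by
    simp only [P, Q, map_sub, map_add, conj_ofReal, conj_I, map_div₀, map_pow, map_ofNat]
    linear_combination (S x * conj (S x) + 1) / 10 * h1
  have h3 := P_ne (w := x) (by simp)
  have h4 : conj (P x) ≠ 0 := (map_ne_zero _).2 h3
  have h5 : S x ≠ 0 := exp_ne_zero _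
  rw [K, h2, W, ofReal_inv, ← normSq_eq_norm_sq, ← mul_conj]
  field_simp
  exact h1.symm

lemma Q_simple {a : ℂ} (h : Q a = 0) : deriv Q a ≠ 0 := by
  have hS : HasDerivAt S (S a * I) a := by
    have := ((hasDerivAt_id a).const_mul I).cexp
    rw [mul_one] at this; exact this
  have hd : HasDerivAt Q (S a ^ 2 * (3 + 2 * I * a)) a := by
    refine ((((hasDerivAt_id a).sub_const I).mul (hS.pow 2)).sub_const (1 / 10)).congr_deriv ?_
    simp only [id, Pi.pow_apply]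
    linear_combination (-2 * S a ^ 2) * I_mul_I
  rw [hd.deriv]
  refine mul_ne_zero (pow_ne_zero _ (exp_ne_zero _)) fun e => ?_
  have ea : a = (3 / 2 : ℝ) * I := by push_cast; linear_combination (-I / 2) * e + a * I_mul_I
  have : S a = Real.exp (-(3 / 2)) := by
    rw [S, ea]; push_cast; congr 1; linear_combination (3 / 2 : ℂ) * I_mul_I
  rw [Q, this, ea] at h
  have := congrArg re h
  simp [-ofReal_exp, ← ofReal_pow] at this

lemma side (k : ℕ) (hk : 9 ≤ (k : ℝ) * π) (x t : ℝ) (ht : 0 < t) (h1 : -(k * π) ≤ x) (h2 : x ≤ k * π + π / 2)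
    (h : x = -(k * π) ∨ x = k * π + π / 2 ∨ t = k * π) :
    Q (x + t * I) ≠ 0 ∧ ‖K (x + t * I)‖ ≤ 40 / (k * π * √(k * π)) := by
  have e1 : exp (2 * I * (k * π : ℝ)) = 1 := by
    rw [← exp_nat_mul_two_pi_mul_I k]; congr 1; push_cast; ring
  set N : ℝ := k * π
  have p0 := Real.pi_pos
  have p4 := Real.pi_le_four
  have r0 : 0 < √N := Real.sqrt_pos.2 (by linarith)
  have r1 := Real.sq_sqrt (show 0 ≤ N by linarith)
  set w : ℂ := x + t * I with hw
  have wi : w.im = t := by simp [hw]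
  have wr : w.re = x := by simp [hw]
  have s0 : 0 < ‖S w‖ := norm_pos_iff.2 (exp_ne_zero _)
  have hP : N / 2 ≤ ‖P w‖ := by
    have := P_low (w := w) (by linarith)
    have a1 := abs_re_le_norm (w + I)
    have a2 := im_le_norm (w + I)
    simp only [add_re, I_re, add_zero, add_im, I_im, wi, wr] at a1 a2
    rcases h with h | h | h <;> linarith [le_abs_self x, neg_abs_le x]
  have hQ : √N * ‖S w‖ ≤ 20 * ‖Q w‖ := by
    have e2 : S w ^ 2 = exp (2 * I * x) * (‖S w‖ ^ 2 : ℝ) := by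
      rw [S_norm, wi, S, ← Real.exp_nat_mul, ← exp_nat_mul, ofReal_exp, ← exp_add, hw]
      congr 1; push_cast; linear_combination (2 * t : ℂ) * I_mul_I
    have v : ∀ σ : ℝ, exp (2 * I * x) = σ → σ * x ≤ -N → √N * ‖S w‖ ≤ 20 * ‖Q w‖ := fun σ hσ hx => by
      have a1 := abs_re_le_norm (Q w)
      have : (Q w).re = σ * x * ‖S w‖ ^ 2 - 1 / 10 := by
        rw [Q, e2, hσ, ← ofReal_mul, sub_re, re_mul_ofReal, sub_re, wr]; simp; ring
      rw [this] at a1
      nlinarith [neg_abs_le (σ * x * ‖S w‖ ^ 2 - 1 / 10), sq_nonneg (√N * ‖S w‖ - 1),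
        mul_le_mul_of_nonneg_right hx (sq_nonneg ‖S w‖), mul_pos (show 0 < N by linarith) (pow_pos s0 2)]
    rcases h with h | h | h
    · refine v 1 ?_ (by linarith)
      rw [h, ofReal_neg, mul_neg, exp_neg, e1]; simp
    · refine v (-1) ?_ (by linarith)
      rw [h, ofReal_add, mul_add, exp_add, e1, one_mul, ofReal_neg, ofReal_one, ← exp_pi_mul_I]
      congr 1; push_cast; ring
    · have a1 : N ^ 2 / 2 ≤ Real.exp N := by
        linarith [Real.quadratic_le_exp_of_nonneg (show 0 ≤ N by linarith)]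
      have a2 : ‖S w‖ * N ^ 2 ≤ 2 := by
        rw [S_norm, wi, h, Real.exp_neg, inv_mul_le_iff₀ (Real.exp_pos _)]; linarith
      have a3 : ‖w - I‖ ≤ 3 * N := by
        refine (norm_le_abs_re_add_abs_im _).trans ?_
        simp only [sub_re, I_re, sub_zero, sub_im, I_im, wi, wr]
        have : |x| ≤ 2 * N := abs_le.2 ⟨by linarith, by linarith⟩
        rw [abs_of_nonneg (show 0 ≤ t - 1 by linarith)]; linarith
      have a4 := norm_sub_norm_le (1 / 10) ((w - I) * S w ^ 2)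
      rw [norm_sub_rev, norm_mul, norm_pow, show ‖(1 / 10 : ℂ)‖ = 1 / 10 by simp] at a4
      have a5 : ‖S w‖ * N ≤ 2 / 9 := by nlinarith
      have a6 : ‖S w‖ ≤ 2 / 81 := by nlinarith
      have a7 : ‖w - I‖ * ‖S w‖ ^ 2 ≤ 3 * (‖S w‖ * N) * ‖S w‖ := by nlinarith [sq_nonneg ‖S w‖]
      have a8 : √N ≤ N := by nlinarith [Real.one_le_sqrt.2 (show 1 ≤ N by linarith)]
      unfold Q; nlinarith
  have q0 : 0 < ‖Q w‖ := by nlinarith [mul_pos r0 s0]
  refine ⟨norm_pos_iff.1 q0, ?_⟩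
  rw [K, norm_div, norm_mul, div_le_div_iff₀ (mul_pos (by linarith) q0) (by positivity)]
  nlinarith [mul_le_mul hP hQ (by positivity) (norm_nonneg _)]

end Pool.Agent.H.MP_c109b8_an
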