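import Pool.Agent.H.MP_c109b8_an.B

open Complex Set Filter Topology MeasureTheory Metric
open scoped Real ComplexConjugate

namespace Pool.Agent.H.MP_c109b8_an

lemma line_cont {g : ℂ → ℂ} (hg : DifferentiableOn ℂ g U) {y : ℝ} (y0 : 0 < y) : Continuous fun x : ℝ => g (x + y * I) :=
  hg.continuousOn.comp_continuous (by fun_prop) fun x => by simpa [U] using y0

lemma intg {E : Type} [NormedAddCommGroup E] {f : ℝ → E} (hf : Continuous f) (C : ℝ)
    (h : ∀ x, ‖f x‖ ≤ C * (1 + x ^ 2)⁻¹) : Integrable f :=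
  (integrable_inv_one_add_sq.const_mul C).mono' hf.aestronglyMeasurable (ae_of_all _ h)

lemma K_cont {y : ℝ} (y0 : 0 ≤ y) (y4 : y ≤ 1 / 4) : Continuous fun x : ℝ => K (x + y * I) := by
  have := S_d.continuous; have := P_d.continuous; have := Q_d.continuous
  exact Continuous.div (by fun_prop) (by fun_prop) fun x =>
    mul_ne_zero (P_ne (by simpa)) (Q_ne (by simpa) (by simpa using y4))
lemma K_le' {y : ℝ} (y0 : 0 ≤ y) (y4 : y ≤ 1 / 4) (x : ℝ) : ‖K (x + y * I)‖ ≤ 8 * (1 + x ^ 2)⁻¹ := by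
  simpa using K_le (w := x + y * I) (by simpa) (by simpa using y4)

noncomputable def D (y x : ℝ) : ℝ :=
  2 * W x - 2 * (S (x + y * I) * K (x + y * I)).re + 2 * ‖conj (S (x + y * I)) * W x - K (x + y * I)‖

lemma W_nn (x : ℝ) : 0 ≤ W x := by unfold W; positivity

lemma D_le {y : ℝ} (y0 : 0 ≤ y) (y4 : y ≤ 1 / 4) (x : ℝ) : ‖D y x‖ ≤ 40 * (1 + x ^ 2)⁻¹ := by
  have h1 := K_le' y0 y4 x
  have h2 := S_le (w := x + y * I) (by simpa)
  have h3 := W_le x
  have h4 := W_nn x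
  have h5 := abs_re_le_norm (S (x + y * I) * K (x + y * I))
  have h6 := norm_sub_le (conj (S (x + y * I)) * W x) (K (x + y * I))
  rw [norm_mul, RCLike.norm_conj, norm_real, Real.norm_of_nonneg h4] at h6
  rw [norm_mul] at h5
  have h7 := mul_le_of_le_one_left (norm_nonneg (K (x + y * I))) h2
  have h8 := mul_le_of_le_one_left h4 h2
  rw [abs_le] at h5
  rw [D, Real.norm_eq_abs, abs_le]
  constructor <;> linarith [norm_nonneg (conj (S (x + y * I)) * W x - K (x + y * I))]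
lemma D_cont {y : ℝ} (y0 : 0 ≤ y) (y4 : y ≤ 1 / 4) : Continuous (D y) := by
  have := S_d.continuous; have := K_cont y0 y4; have := W_cont
  unfold D; fun_prop

lemma small : ∀ᶠ y : ℝ in 𝓝[>] 0, 0 < y ∧ y ≤ 1 / 4 := Ioc_mem_nhdsGT (by norm_num)

lemma D_lim : Tendsto (fun y => ∫ x, D y x) (𝓝[>] 0) (𝓝 0) := by
  have := tendsto_integral_filter_of_dominated_convergence (μ := volume) (l := 𝓝[>] (0 : ℝ)) (F := D) (f := fun _ => 0)
    (fun x => 40 * (1 + x ^ 2)⁻¹) (small.mono fun y hy => (D_cont hy.1.le hy.2).aestronglyMeasurable)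
    (small.mono fun y hy => ae_of_all _ (D_le hy.1.le hy.2)) (integrable_inv_one_add_sq.const_mul _)
    (ae_of_all _ fun x => ?_)
  · simpa using this
  have c1 := S_d.continuous; have c2 := P_d.continuous; have c3 := Q_d.continuous
  have hK : ContinuousAt (fun y : ℝ => K (x + y * I)) 0 :=
    ContinuousAt.div (by fun_prop) (by fun_prop) (mul_ne_zero (P_ne (by simp)) (Q_ne (by simp) (by simp)))
  have : ContinuousAt (fun y => D y x) 0 := by unfold D; fun_prop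
  have e : D 0 x = 0 := by
    simp only [D, ofReal_zero, zero_mul, add_zero, K_real, sub_self, norm_zero, ← mul_assoc, S_conj, one_mul, ofReal_re,
      mul_zero]
  exact tendsto_nhdsWithin_of_tendsto_nhds (this.tendsto.trans (by rw [e]))

lemma mU (x t : ℝ) (ht : 0 < t) : (x + t * I : ℂ) ∈ U := by simpa [U] using ht
lemma t1 : Tendsto (fun k : ℕ => (k : ℝ) * π) atTop atTop := tendsto_natCast_atTop_atTop.atTop_mul_const Real.pi_pos

lemma i1 {ψ : ℂ → ℂ} (hψ : DifferentiableOn ℂ ψ U) (bψ : ∀ w ∈ U, ‖ψ w‖ ≤ 2) {y : ℝ} (y0 : 0 < y) (y4 : y ≤ 1 / 4) :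
    Integrable fun x : ℝ => ψ (x + y * I) * K (x + y * I) :=
  intg ((line_cont hψ y0).mul (K_cont y0.le y4)) 16 fun x => by
    rw [norm_mul]
    exact (mul_le_mul (bψ _ (mU x y y0)) (K_le' y0.le y4 x) (norm_nonneg _) (by norm_num)).trans_eq (by ring)

lemma z1 {ψ : ℂ → ℂ} (hψ : DifferentiableOn ℂ ψ U) (bψ : ∀ w ∈ U, ‖ψ w‖ ≤ 2) (hz : ∀ w ∈ U, Q w = 0 → ψ w = 0)
    {y : ℝ} (y0 : 0 < y) (y4 : y ≤ 1 / 4) : ∫ x : ℝ, ψ (x + y * I) * K (x + y * I) = 0 := by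
  obtain ⟨φ, hφ, eφ⟩ := quot hψ Q_d.differentiableOn fun a ha e => ⟨hz a ha e, Q_simple e⟩
  have eΦ : ∀ w, Q w ≠ 0 → φ w * S w / P w = ψ w * K w := fun w hw => by rw [eφ w hw, K]; ring
  have e : (fun x : ℝ => ψ (x + y * I) * K (x + y * I)) = fun x : ℝ => φ (x + y * I) * S (x + y * I) / P (x + y * I) :=
    funext fun x => (eΦ _ (Q_ne (by simpa using y0.le) (by simpa using y4))).symm
  have j := i1 hψ bψ y0 y4
  rw [e] at j ⊢
  refine contour (Φ := fun w => φ w * S w / P w) ((hφ.mul S_d.differentiableOn).div P_d.differentiableOn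
    fun w hw => P_ne (le_of_lt hw)) y0 (by linarith) j 80 ?_
  filter_upwards [t1.eventually_ge_atTop 9] with k hk x t ht h1 h2 h
  obtain ⟨s1, s2⟩ := side k hk x t ht h1 h2 h
  rw [eΦ _ s1, norm_mul]
  exact (mul_le_mul (bψ _ (mU x t ht)) s2 (norm_nonneg _) (by norm_num)).trans_eq (by ring)

lemma i2 {ψ : ℂ → ℂ} (hψ : DifferentiableOn ℂ ψ U) (bψ : ∀ w ∈ U, ‖ψ w‖ ≤ 2) {y : ℝ} (y0 : 0 < y) :
    Integrable fun x : ℝ => ‖ψ (x + y * I)‖ ^ 2 * W x :=
  intg (((line_cont hψ y0).norm.pow 2).mul W_cont) 8 fun x => by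
    rw [Real.norm_of_nonneg (mul_nonneg (sq_nonneg _) (W_nn x))]
    exact (mul_le_mul (pow_le_pow_left₀ (norm_nonneg _) (bψ _ (mU x y y0)) 2) (W_le x) (W_nn x)
      (by norm_num)).trans_eq (by ring)

lemma ptw (a s k : ℂ) (v : ℝ) (a1 : ‖a‖ ≤ 1) (a2 : ‖s‖ ≤ 1) (a3 : 0 ≤ v) :
    ‖a - s‖ ^ 2 * v ≤ 2 * v - 2 * (s * k).re + 2 * ‖conj s * v - k‖ - 2 * ((a - s) * k).re := by
  have a4 := abs_re_le_norm (a * (conj s * v - k))
  rw [norm_mul, abs_le] at a4
  have a5 := mul_le_of_le_one_left (norm_nonneg (conj s * v - k)) a1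
  have a6 : ‖a - s‖ ^ 2 ≤ 2 - 2 * (a * conj s).re := by
    rw [Complex.sq_norm, normSq_sub, normSq_eq_norm_sq, normSq_eq_norm_sq]
    nlinarith [norm_nonneg a, norm_nonneg s]
  have a7 : (a * (conj s * v - k)).re = (a * conj s).re * v - ((a - s) * k).re - (s * k).re := by
    simp only [mul_re, mul_im, sub_re, sub_im, conj_re, conj_im, ofReal_re, ofReal_im]; ring
  nlinarith [mul_le_mul_of_nonneg_right a6 a3]

lemma J {g : ℂ → ℂ} (hg : DifferentiableOn ℂ g U) (hb : ∀ w ∈ U, ‖g w‖ ≤ 1) (hz : ∀ w ∈ U, Q w = 0 → g w = S w)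
    (bψ : ∀ w ∈ U, ‖g w - S w‖ ≤ 2) {y : ℝ} (y0 : 0 < y) (y4 : y ≤ 1 / 4) :
    ∫ x : ℝ, ‖g (x + y * I) - S (x + y * I)‖ ^ 2 * W x ≤ ∫ x, D y x := by
  have hψ : DifferentiableOn ℂ (fun w => g w - S w) U := hg.sub S_d.differentiableOn
  have i3 := intg (D_cont y0.le y4) 40 (D_le y0.le y4)
  have j := i1 hψ bψ y0 y4
  have i4 := j.re.const_mul 2
  have e : ∫ x : ℝ, (D y x - 2 * RCLike.re ((g (x + y * I) - S (x + y * I)) * K (x + y * I))) = ∫ x, D y x := by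
    rw [integral_sub i3 i4, integral_const_mul, integral_re j, z1 hψ bψ (fun w hw e => sub_eq_zero.2 (hz w hw e)) y0 y4]
    simp
  rw [← e]
  exact integral_mono (i2 hψ bψ y0) (i3.sub i4) fun x =>
    ptw _ _ _ _ (hb _ (mU x y y0)) (S_le (by simpa using y0.le)) (W_nn x)

noncomputable def R (w : ℂ) (y x : ℝ) : ℂ := ((x + y * I - w) * (x + y * I - conj w))⁻¹

lemma R_le {w : ℂ} (w0 : 0 < w.im) : ∃ C : ℝ, 0 ≤ C ∧ ∀ y : ℝ, 0 ≤ y → y ≤ w.im / 2 → ∀ x : ℝ,
    (x + y * I - w) * (x + y * I - conj w) ≠ 0 ∧ ‖R w y x‖ ≤ C * (1 + x ^ 2)⁻¹ := by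
  refine ⟨2 + 4 * (1 + 2 * w.re ^ 2) / w.im ^ 2, by positivity, fun y y0 y1 x => ?_⟩
  have b1 : (x - w.re) ^ 2 + w.im ^ 2 / 4 ≤ ‖(x + y * I - w) * (x + y * I - conj w)‖ := by
    rw [← sq_le_sq₀ (by positivity) (norm_nonneg _), norm_mul, mul_pow, sq_n, sq_n, sq]
    refine mul_le_mul ?_ ?_ (by positivity) (by positivity) <;> simp <;> nlinarith
  have b0 : 0 < (x - w.re) ^ 2 + w.im ^ 2 / 4 := by positivity
  refine ⟨norm_pos_iff.1 (b0.trans_le b1), ?_⟩
  rw [R, norm_inv, ← div_eq_mul_inv, inv_eq_one_div, div_le_div_iff₀ (b0.trans_le b1) (by positivity)]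
  refine le_trans ?_ (mul_le_mul_of_nonneg_left b1 (by positivity))
  have e : 4 * (1 + 2 * w.re ^ 2) / w.im ^ 2 * (w.im ^ 2 / 4) = 1 + 2 * w.re ^ 2 := by field_simp
  have : 0 ≤ 4 * (1 + 2 * w.re ^ 2) / w.im ^ 2 * (x - w.re) ^ 2 := by positivity
  nlinarith [sq_nonneg (x - 2 * w.re)]

lemma poisson {ψ : ℂ → ℂ} (hψ : DifferentiableOn ℂ ψ U) (b2 : ∀ w ∈ U, ‖ψ w‖ ≤ 4) {w : ℂ} (hw : w ∈ U) {y : ℝ}
    (y0 : 0 < y) (y4 : y ≤ 1) (hn : ∀ x : ℝ, x + y * I ≠ w) (j1 : Integrable (R w y))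
    (j2 : Integrable fun x : ℝ => ψ (x + y * I) * R w y x) :
    ∫ x : ℝ, ψ (x + y * I) * R w y x = ψ w * ∫ x, R w y x := by
  have w0 : 0 < w.im := hw
  have eΘ : ∀ v, v ≠ w → dslope ψ w v / (v - conj w) = (ψ v - ψ w) * ((v - w) * (v - conj w))⁻¹ :=
    fun v hv => by rw [dslope_of_ne _ hv, slope_def_field, mul_inv]; ring
  have e : (fun x : ℝ => ψ (x + y * I) * R w y x - ψ w * R w y x) =
      fun x : ℝ => dslope ψ w (x + y * I) / (x + y * I - conj w) := funext fun x => by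
    rw [eΘ _ (hn x), sub_mul, R]
  have j : Integrable fun x : ℝ => ψ (x + y * I) * R w y x - ψ w * R w y x := j2.sub (j1.const_mul _)
  rw [← sub_eq_zero, ← integral_const_mul, ← integral_sub j2 (j1.const_mul _)]
  rw [e] at j ⊢
  refine contour (Φ := fun v => dslope ψ w v / (v - conj w))
    (((differentiableOn_dslope (U_open.mem_nhds hw)).2 hψ).div (by fun_prop) fun v hv e => by
      have := congrArg im e
      have hv' : 0 < v.im := hv
      simp at this; linarith) y0 y4 j 32 ?_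
  filter_upwards [t1.eventually_ge_atTop 1, t1.eventually_ge_atTop (2 * ‖w‖)] with k k1 hk x t ht h1 h2 h
  generalize (k : ℝ) * π = N at *
  have n1 : N ≤ ‖(x + t * I : ℂ)‖ := by
    have a1 := abs_re_le_norm (x + t * I)
    have a2 := im_le_norm (x + t * I)
    simp at a1 a2
    rcases h with h | h | h <;> linarith [le_abs_self x, neg_abs_le x, Real.pi_pos]
  have n2 : N / 2 ≤ ‖x + t * I - w‖ := by linarith [norm_sub_norm_le (x + t * I) w]
  have n3 : N / 2 ≤ ‖x + t * I - conj w‖ := by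
    have := norm_sub_norm_le (x + t * I) (conj w)
    rw [RCLike.norm_conj] at this; linarith
  rw [eΘ _ (sub_ne_zero.1 (norm_pos_iff.1 (by linarith))), norm_mul, norm_inv, norm_mul]
  have n4 : ‖ψ (x + t * I) - ψ w‖ ≤ 8 := (norm_sub_le _ _).trans (by linarith [b2 _ (mU x t ht), b2 w hw])
  have n5 : √N ≤ N := by nlinarith [Real.one_le_sqrt.2 k1, Real.sq_sqrt (show 0 ≤ N by linarith)]
  have r0 : 0 < √N := Real.sqrt_pos.2 (by linarith)
  calc _ ≤ 8 * (N / 2 * (√N / 2))⁻¹ := by gcongr; linarith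
    _ = _ := by field_simp; norm_num

theorem core {g : ℂ → ℂ} (hg : DifferentiableOn ℂ g U) (hb : ∀ w ∈ U, ‖g w‖ ≤ 1)
    (hz : ∀ w ∈ U, Q w = 0 → g w = S w) : ∀ w ∈ U, g w = S w := by
  have hψ : DifferentiableOn ℂ (fun w => g w - S w) U := hg.sub S_d.differentiableOn
  have bψ : ∀ w ∈ U, ‖g w - S w‖ ≤ 2 := fun w hw =>
    (norm_sub_le _ _).trans (by linarith [hb w hw, S_le (le_of_lt hw)])
  intro w hw
  have w0 : 0 < w.im := hw
  obtain ⟨C, C0, hC⟩ := R_le w0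
  have Rc : ∀ y : ℝ, 0 ≤ y → y ≤ w.im / 2 → Continuous (R w y) := fun y y0 y1 =>
    Continuous.inv₀ (by fun_prop) fun x => (hC y y0 y1 x).1
  have sm : ∀ᶠ y : ℝ in 𝓝[>] 0, 0 < y ∧ y ≤ w.im / 2 := Ioc_mem_nhdsGT (by linarith)
  have b2 : ∀ v ∈ U, ‖(g v - S v) ^ 2‖ ≤ 4 := fun v hv => by
    rw [norm_pow]; nlinarith [bψ v hv, norm_nonneg (g v - S v)]
  have z2 : ∀ y : ℝ, 0 < y → y ≤ 1 / 4 → y ≤ w.im / 2 →
      ‖(g w - S w) ^ 2 * ∫ x, R w y x‖ ≤ 4 * C * ∫ x, D y x := fun y y0 y4 y1 => by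
    have j1 := intg (Rc y y0.le y1) C fun x => (hC y y0.le y1 x).2
    have j2 : Integrable fun x : ℝ => (g (x + y * I) - S (x + y * I)) ^ 2 * R w y x :=
      intg (((line_cont hψ y0).pow 2).mul (Rc y y0.le y1)) (4 * C) fun x => by
        rw [norm_mul, mul_assoc]
        exact mul_le_mul (b2 _ (mU x y y0)) (hC y y0.le y1 x).2 (norm_nonneg _) (by norm_num)
    rw [← poisson (ψ := fun v => (g v - S v) ^ 2) (hψ.pow 2) b2 hw y0 (by linarith)
      (fun x => sub_ne_zero.1 (left_ne_zero_of_mul (hC y y0.le y1 x).1)) j1 j2]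
    refine le_trans (norm_integral_le_of_norm_le ((i2 hψ bψ y0).const_mul (4 * C)) (ae_of_all _ fun x => ?_)) ?_
    · rw [norm_mul, norm_pow]
      have := ((hC y y0.le y1 x).2).trans (mul_le_mul_of_nonneg_left (W_ge x) C0)
      nlinarith [mul_le_mul_of_nonneg_left this (sq_nonneg ‖g (x + y * I) - S (x + y * I)‖)]
    · rw [integral_const_mul]
      exact mul_le_mul_of_nonneg_left (J hg hb hz bψ y0 y4) (by positivity)
  have l1 : Tendsto (fun y => ∫ x, R w y x) (𝓝[>] 0) (𝓝 (∫ x, R w 0 x)) :=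
    tendsto_integral_filter_of_dominated_convergence (fun x => C * (1 + x ^ 2)⁻¹)
      (sm.mono fun y hy => (Rc y hy.1.le hy.2).aestronglyMeasurable)
      (sm.mono fun y hy => ae_of_all _ fun x => (hC y hy.1.le hy.2 x).2) (integrable_inv_one_add_sq.const_mul _)
      (ae_of_all _ fun x => tendsto_nhdsWithin_of_tendsto_nhds (ContinuousAt.tendsto (f := fun y => R w y x)
        (ContinuousAt.inv₀ (by fun_prop) (hC 0 le_rfl (by linarith) x).1)))
  have l2 := le_of_tendsto_of_tendsto (l1.const_mul ((g w - S w) ^ 2)).norm (D_lim.const_mul (4 * C)) (by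
    filter_upwards [small, sm] with y h1 h2 using z2 y h1.1 h1.2 h2.2)
  rw [mul_zero, norm_le_zero_iff, mul_eq_zero] at l2
  rcases l2 with l2 | l2
  · exact sub_eq_zero.1 (pow_eq_zero_iff two_ne_zero |>.1 l2)
  exfalso
  have j1 := intg (Rc 0 le_rfl (by linarith)) C fun x => (hC 0 le_rfl (by linarith) x).2
  have := integral_re j1
  rw [l2, map_zero] at this
  have e : ∀ x : ℝ, 0 < RCLike.re (R w 0 x) := fun x => by
    have h1 := (hC 0 le_rfl (by linarith) x).1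
    have h2 : (x + (0 : ℝ) * I - conj w : ℂ) = conj (x + (0 : ℝ) * I - w) := by simp
    rw [R, h2, mul_conj, ← ofReal_inv, RCLike.re_to_complex, ofReal_re]
    exact inv_pos.2 (normSq_pos.2 (left_ne_zero_of_mul h1))
  exact (integral_pos_of_integrable_nonneg_nonzero (f := fun x => RCLike.re (R w 0 x)) (x := 0)
    (RCLike.continuous_re.comp (Rc 0 le_rfl (by linarith))) j1.re (fun x => (e x).le) (e 0).ne').ne' this

end Pool.Agent.H.MP_c109b8_an
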